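import Pool.Agent.Q155.HookTwo.Odd

/-!
Q1 of MP_d17fc5_co: `A_L(n) ≥ B_L(n)` for every positive integer `L` and every `n`.
-/

set_option autoImplicit false

namespace Pool.Agent.Results.MP_d17fc5_co.WeightedBias

open Q155.HookTwo

/-- For every `L ≥ 1` and `n`, `B_L(n) ≤ A_L(n)`. -/
theorem result (L : ℕ) (_hL : 1 ≤ L) (n : ℕ) : B L n ≤ A L n :=
  A_ge_B L n

end Pool.Agent.Results.MP_d17fc5_co.WeightedBias
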